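import Pool.Agent.Lib.H8.TD

set_option autoImplicit false

namespace Pool.Agent.Results.MP_df5a7a_co.OddFamily

open Pool.Agent.Lib.H8.TD

/-- `K_p` with every edge doubled and subdivided: `(i,i)` are the branch vertices. -/
def G (p : ℕ) : SimpleGraph (Fin p × Fin p) where
  Adj x y := (x.1 ≠ x.2 ∧ y.1 = y.2 ∧ (y.1 = x.1 ∨ y.1 = x.2)) ∨
    (y.1 ≠ y.2 ∧ x.1 = x.2 ∧ (x.1 = y.1 ∨ x.1 = y.2))
  symm := ⟨fun _ _ h => h.symm⟩
  loopless := ⟨fun _ h => h.elim (fun h => h.1 h.2.1) (fun h => h.1 h.2.1)⟩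

/-- For every k ≥ 1 there is a connected graph on n = (2k+1)^2 vertices with minimum degree at
least 2 and td(G) ≥ k^2 > (n - 2√n)/4. -/
theorem result (k : ℕ) (hk : 1 ≤ k) :
    ∃ (V : Type) (_ : Fintype V) (G : SimpleGraph V),
      Fintype.card V = (2 * k + 1) ^ 2 ∧ G.Connected ∧ (∀ v, 2 ≤ (G.neighborSet v).ncard) ∧
      k ^ 2 ≤ td G ∧
      ((Fintype.card V : ℝ) - 2 * Real.sqrt (Fintype.card V)) / 4 < td G := by
  classical
  have hcard : Fintype.card (Fin (2 * k + 1) × Fin (2 * k + 1)) = (2 * k + 1) ^ 2 := by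
    simp [sq]
  have : Nontrivial (Fin (2 * k + 1)) := Fin.nontrivial_iff_two_le.2 (by omega)
  have htd : k ^ 2 ≤ td (G (2 * k + 1)) := by
    apply le_td _ (by rw [hcard]; nlinarith)
    intro H S T hST hS hT
    let P : Finset (Fin (2 * k + 1)) := Finset.univ.filter (fun i => (i, i) ∈ S)
    refine ⟨P.offDiag ∪ Pᶜ.offDiag, ?_, ?_⟩
    · rw [Finset.card_union_of_disjoint, Finset.offDiag_card, Finset.offDiag_card]
      · have h1 : P.card + Pᶜ.card = 2 * k + 1 := by
          rw [Finset.card_add_card_compl]; simp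
        generalize P.card = a at *
        generalize Pᶜ.card = b at *
        have h2 : a ≤ a * a := Nat.le_mul_self a
        have h3 : b ≤ b * b := Nat.le_mul_self b
        have h4 : (a : ℤ) - b ≠ 0 := by omega
        have h5 : 0 < ((a : ℤ) - b) ^ 2 := by positivity
        zify [h2, h3] at *
        nlinarith
      · rw [Finset.disjoint_left]
        intro x h1 h2
        rw [Finset.mem_offDiag] at h1 h2
        exact Finset.mem_compl.1 h2.1 h1.1
    · rintro ⟨i, j⟩ hv
      rcases Finset.mem_union.1 hv with hv | hv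
      · rw [Finset.mem_offDiag] at hv
        obtain ⟨h1, h2, h3⟩ := hv
        simp only [P, Finset.mem_filter, Finset.mem_univ, true_and] at h1 h2 h3
        obtain ⟨⟨a, b⟩, hu, hu'⟩ := hT (i, j)
        refine ⟨(a, b), hu', ?_⟩
        rintro (⟨_, h4, h5 | h5⟩ | ⟨_, h4, _⟩)
        · simp only at h4 h5
          subst h4 h5
          exact Set.disjoint_left.1 hST h1 hu
        · simp only at h4 h5
          subst h4 h5
          exact Set.disjoint_left.1 hST h2 hu
        · exact h3 h4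
      · rw [Finset.mem_offDiag] at hv
        obtain ⟨h1, h2, h3⟩ := hv
        simp only [P, Finset.mem_compl, Finset.mem_filter, Finset.mem_univ, true_and] at h1 h2 h3
        obtain ⟨⟨a, b⟩, hu, hu'⟩ := hS (i, j)
        refine ⟨(a, b), hu', ?_⟩
        rintro (⟨_, h4, h5 | h5⟩ | ⟨_, h4, _⟩)
        · simp only at h4 h5
          subst h4 h5
          exact h1 hu
        · simp only at h4 h5
          subst h4 h5
          exact h2 hu
        · exact h3 h4
  refine ⟨Fin (2 * k + 1) × Fin (2 * k + 1), inferInstance, G (2 * k + 1), hcard, ?_, ?_, htd, ?_⟩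
  · have r1 : ∀ i j, (G (2 * k + 1)).Reachable (i, j) (i, i) := fun i j => by
      by_cases h : i = j
      · subst h; rfl
      · exact SimpleGraph.Adj.reachable (Or.inl ⟨h, rfl, Or.inl rfl⟩)
    have r2 : ∀ i j, (G (2 * k + 1)).Reachable (i, j) (j, j) := fun i j => by
      by_cases h : i = j
      · subst h; rfl
      · exact SimpleGraph.Adj.reachable (Or.inl ⟨h, rfl, Or.inr rfl⟩)
    refine ⟨fun x y => ?_⟩
    obtain ⟨a, b⟩ := x
    obtain ⟨c, d⟩ := y
    exact ((r1 a b).trans (r1 a c).symm).trans ((r2 a c).trans (r1 c d).symm)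
  · rintro ⟨i, j⟩
    by_cases h : i = j
    · subst h
      obtain ⟨l, hl⟩ := exists_ne i
      exact (Set.one_lt_ncard (Set.toFinite _)).2 ⟨(i, l), Or.inr ⟨hl.symm, rfl, Or.inl rfl⟩,
        (l, i), Or.inr ⟨hl, rfl, Or.inr rfl⟩, fun h => hl (Prod.mk.inj h).2⟩
    · exact (Set.one_lt_ncard (Set.toFinite _)).2 ⟨(i, i), Or.inl ⟨h, rfl, Or.inl rfl⟩,
        (j, j), Or.inl ⟨h, rfl, Or.inr rfl⟩, fun h' => h (Prod.mk.inj h').1⟩
  · rw [hcard]
    push_cast
    rw [Real.sqrt_sq (by positivity)]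
    have : ((k : ℝ)) ^ 2 ≤ td (G (2 * k + 1)) := by exact_mod_cast htd
    nlinarith

end Pool.Agent.Results.MP_df5a7a_co.OddFamily
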