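import Pool.Agent.Lib.H8.TD

set_option autoImplicit false

namespace Pool.Agent.Results.MP_df5a7a_co.ThreeTriangles

open Pool.Agent.Lib.H8.TD

/-- three disjoint triangles -/
def G : SimpleGraph (Fin 3 × Fin 3) where
  Adj x y := x.1 = y.1 ∧ x.2 ≠ y.2
  symm := ⟨fun _ _ h => ⟨h.1.symm, h.2.symm⟩⟩
  loopless := ⟨fun _ h => h.2 rfl⟩

/-- Even the rounded-up bound td(G) ≤ ⌈(n - 2√n)/4⌉ fails. -/
theorem result :
    ¬ ∀ (V : Type) [Fintype V] (G : SimpleGraph V), 4 ≤ Fintype.card V →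
      (∀ v, 2 ≤ (G.neighborSet v).ncard) →
      (td G : ℤ) ≤ ⌈((Fintype.card V : ℝ) - 2 * Real.sqrt (Fintype.card V)) / 4⌉ := by
  classical
  intro h
  have htd : 2 ≤ td G := by
    apply le_td _ (by simp)
    intro H S T hST hS hT
    have key : ∀ i : Fin 3, ∃ a : Fin 3, ∃ u, H.Adj (i, a) u ∧ ¬ G.Adj (i, a) u := by
      intro i
      by_contra hc
      push Not at hc
      have h1 : ∀ a : Fin 3, ∃ b : Fin 3, a ≠ b ∧ (i, b) ∈ S := fun a => by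
        obtain ⟨⟨j, b⟩, hu, hu'⟩ := hS (i, a)
        obtain ⟨rfl, h2⟩ : i = j ∧ a ≠ b := hc a _ hu'
        exact ⟨b, h2, hu⟩
      have h2 : ∀ a : Fin 3, ∃ b : Fin 3, a ≠ b ∧ (i, b) ∉ S := fun a => by
        obtain ⟨⟨j, b⟩, hu, hu'⟩ := hT (i, a)
        obtain ⟨rfl, h2⟩ : i = j ∧ a ≠ b := hc a _ hu'
        exact ⟨b, h2, fun h => Set.disjoint_left.1 hST h hu⟩
      have h3 : ∀ c : Fin 3 → Bool, (∀ a : Fin 3, ∃ b : Fin 3, a ≠ b ∧ c b = true) →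
        ¬ (∀ a : Fin 3, ∃ b : Fin 3, a ≠ b ∧ c b = false) := by decide
      exact h3 (fun b => decide ((i, b) ∈ S)) (by simpa using h1) (by simpa using h2)
    choose a ha using key
    refine ⟨Finset.univ.image (fun i => (i, a i)), ?_, ?_⟩
    · rw [Finset.card_image_of_injective _ (fun _ _ h => (Prod.mk.inj h).1)]
      simp
    · intro v hv
      obtain ⟨i, -, rfl⟩ := Finset.mem_image.1 hv
      exact ha i
  have h1 := h (Fin 3 × Fin 3) G (by simp) (by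
    rintro ⟨i, a⟩
    exact (Set.one_lt_ncard (Set.toFinite _)).2 ⟨(i, a + 1),
      ⟨rfl, (by decide : ∀ a : Fin 3, a ≠ a + 1) a⟩, (i, a + 2),
      ⟨rfl, (by decide : ∀ a : Fin 3, a ≠ a + 2) a⟩,
      fun h => (by decide : ∀ a : Fin 3, a + 1 ≠ a + 2) a (Prod.mk.inj h).2⟩)
  have hc : (Fintype.card (Fin 3 × Fin 3) : ℝ) = 3 ^ 2 := by simp; norm_num
  rw [hc, Real.sqrt_sq (by norm_num)] at h1
  have h2 : ⌈((3 : ℝ) ^ 2 - 2 * 3) / 4⌉ ≤ 1 := Int.ceil_le.2 (by norm_num)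
  omega

end Pool.Agent.Results.MP_df5a7a_co.ThreeTriangles
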